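import Pool.Agent.Y529.DR.V2
import Pool.Agent.Y125.CG.Cnb
import Pool.Agent.Y991.CG.LMI
import Pool.Agent.Y68.CG.KBZ
import Pool.Agent.Y954.CG.Mpz
import Pool.Agent.Y710.CG.S0P
import Pool.Agent.Y37.CG.Krz
import Pool.Agent.Y563.CG.Ciz
import Pool.Agent.Y25.CG.CTZ
import Pool.Agent.Y784.CBE.CRE
import Pool.Agent.Y232.CB.ELE
import Pool.Agent.Y46.CB.TBY
import Pool.Agent.Y317.CB.Rhoy
import Pool.Agent.Y105.CB.Rho
import Pool.Agent.Y288.CB.TB0
import Pool.Agent.Y481.Wm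
import Pool.Agent.Y238.CG.PF
import Pool.Agent.Y319.CG.Loz
import Pool.Agent.Y79.CG.Rhot2
import Pool.Agent.Y252.CG.Rhoa
import Pool.Agent.Y252.CG.Kaz
import Pool.Agent.Y232.CG.Mwz
import Pool.Agent.Y641.CG.Main
import Pool.Agent.Y761.CG.Csz

/-!
# DR-MAINF: the growth rate of the exact expression, from the parts which concern the traces, the
potential and the iterated integral with the functions of the children
-/

set_option autoImplicit false

namespace Pool.Agent.Y529.DR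

open Finset Filter Topology Metric
open Pool.Agent.W711.HT hiding XX
open Pool.Agent.Y472 Pool.Agent.Y481.DR Pool.Agent.Y421.CG
open scoped Real

theorem mainf (hPOT : S_POTF) (hXL : S_XLF) (hKF : S_KFV) (hKFF : S_KFFV) (hTFB : S_TFBV)
    (hFA : S_FAZV) (hTH : S_THZV) : S_MAINF := by
  have hRHO : S_RHO := Pool.Agent.Y105.CB.rho
  have hTB0 : S_TB0 := Pool.Agent.Y288.CB.tb0
  have hRY : S_RHOY := Pool.Agent.Y317.CB.rhoy
  have hTY : S_TBY := Pool.Agent.Y46.CB.tby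
  have hS0 : S_S0P := Pool.Agent.Y710.CG.s0p
  have hKB : KBZc := Pool.Agent.Y68.CG.kbz Pool.Agent.Y238.CG.pf Pool.Agent.Y125.CG.cnb
    Pool.Agent.Y991.CG.lmi
  have hSDc := Pool.Agent.Y641.CG.sdz hS0
  have hLOc : LOZc := Pool.Agent.Y319.CG.loz Pool.Agent.Y238.CG.pf Pool.Agent.Y954.CG.mpz
    Pool.Agent.Y125.CG.cnb Pool.Agent.Y991.CG.lmi hS0 hSDc
  have hMWc : MWZc := Pool.Agent.Y232.CG.mwz hKB hLOc hSDc
  exact mainf_of Pool.Agent.Y481.bet_pos hKF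
    (favc_of hFA hKB (Pool.Agent.Y37.CG.krz hTB0 hTY hRHO hRY)
      (Pool.Agent.Y252.CG.kaz hTB0 hRHO Pool.Agent.Y252.CG.rhoa) hTFB hKFF hKF hS0)
    (thvc_of hTH hTB0 hRHO Pool.Agent.Y79.CG.rhot)
    (hXL hPOT Pool.Agent.Y784.CBE.cre Pool.Agent.Y232.CBE.ele hMWc hKB)
    Pool.Agent.Y563.CG.ciz (cszc_of Pool.Agent.Y761.CG.csz hS0)
    (ctzc_of Pool.Agent.Y25.CG.ctz hS0) hS0 hSDc

end Pool.Agent.Y529.DR
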