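import Pool.Agent.Y481.DR.Defs
import Pool.Agent.Y421.CG.Mz1

/-!
# DR-MAINF, part 1: auxiliary results
-/

set_option autoImplicit false

namespace Pool.Agent.Y529.DR

open Finset Filter Topology Metric
open Pool.Agent.W711.HT hiding XX
open Pool.Agent.Y472 Pool.Agent.Y481.DR Pool.Agent.Y421.CG
open Pool.Agent.Y833.CB
open Pool.Agent.Y481 (cw)
open scoped Real

/-- the conclusion of FAZV -/
def FAVc : Prop := ∀ (ls : List (Vx × Vx)) (m : ℤ), ls ≠ [] → SubL ls → ∀ ε : ℝ, 0 < ε →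
  ∀ᶠ N : ℕ in atTop,
  (∀ p : ℕ, N / 3 ≤ p → 2 * p ≤ N →
    ‖deriv (fun χ => wE N m χ * TV N ls χ) (2 * π * p / N)‖ ≤
      Real.exp (N * (157 / 100 * ls.length + ε))) ∧
  ∀ χ : ℂ, |χ.re| ≤ 2 * π / 3 → |χ.im| ≤ 9 / 5 → Gap N χ →
    ‖TV N ls χ‖ ≤ Real.exp (N * (2 * ls.length * max (s0 χ).re bet + ε)) ∧
    ‖TV N ls χ - TmV N ls χ‖ ≤
      Real.exp (N * ((2 * ls.length - 1) * max (s0 χ).re bet + bet + ε))

theorem favc_of (h : S_FAZV) (h1 : KBZc) (h2 : KRZc) (h3 : KAZc) (h4 : S_TFBV) (h5 : S_KFFV)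
    (h6 : S_KFV) (h7 : S_S0P) : FAVc := h h1 h2 h3 h4 h5 h6 h7

/-- the conclusion of THZV -/
def THVc : Prop := ∀ ls : List (Vx × Vx), ls ≠ [] → SubL ls →
  ∀ ε : ℝ, 0 < ε → ∀ᶠ N : ℕ in atTop, ∀ p < N,
    (2 * p ≤ N → ‖ThV N ls p‖ ≤ Real.exp (N * (13 / 10 * ls.length + ε))) ∧
    (N ≤ 2 * p → ‖TV N ls (2 * π * p / N) - ThV N ls p‖ ≤
      Real.exp (N * (13 / 10 * ls.length + ε)))

theorem thvc_of (h : S_THZV) (h1 : S_TB0) (h2 : S_RHO) (h3 : S_RHOT) : THVc := h h1 h2 h3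

/-! ### The trace -/

lemma MBV_diff (N : ℕ) (V : Vx) (i j : Fin N) : Differentiable ℂ fun χ => MBV N χ V i j := by
  unfold MBV
  split_ifs
  · refine Differentiable.mul ?_ (differentiable_const _)
    refine Differentiable.fun_finsetProd fun t _ => ?_
    unfold Ph
    exact (differentiable_const _).mul
      (((differentiable_const _).mul Complex.differentiable_cos).sub (differentiable_const _))
  · exact differentiable_const _

lemma mul_MBV_diff (N : ℕ) (M : Matrix (Fin N) (Fin N) ℂ) (V : Vx) (i j : Fin N) :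
    Differentiable ℂ fun χ => (M * MBV N χ V) i j := by
  have : (fun χ => (M * MBV N χ V) i j) = fun χ => ∑ k, M i k * MBV N χ V k j := by
    funext χ
    rw [Matrix.mul_apply]
  rw [this]
  exact Differentiable.fun_sum fun k _ => (differentiable_const _).mul (MBV_diff N V k j)

lemma TV_diff (N : ℕ) (ls : List (Vx × Vx)) : Differentiable ℂ (TV N ls) :=
  trace_diff ls (fun q χ => MAV N q.1 * MBV N χ q.2) fun q i j => mul_MBV_diff N _ _ i j

lemma MBV_congr (N : ℕ) {χ χ' : ℂ} (h : Complex.cos χ = Complex.cos χ') (V : Vx) :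
    MBV N χ V = MBV N χ' V := by
  unfold MBV Ph
  rw [h]

lemma TV_congr (N : ℕ) (ls : List (Vx × Vx)) {χ χ' : ℂ} (h : Complex.cos χ = Complex.cos χ') :
    TV N ls χ = TV N ls χ' := by
  unfold TV
  simp only [MBV_congr N h]

lemma FV_add (N : ℕ) (ls : List (Vx × Vx)) (m : ℤ) (χ : ℂ) :
    wE N m (χ + 2 * π) * TV N ls (χ + 2 * π) =
      wE N m χ * TV N ls χ * Complex.exp (2 * Complex.I * m * N * χ) := by
  rw [wE_add, TV_congr N ls (Complex.cos_add_two_pi χ)]
  ring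

lemma FV_deriv (N : ℕ) (hN : 0 < N) (ls : List (Vx × Vx)) (m : ℤ) (q : ℤ) :
    deriv (fun χ => wE N m χ * TV N ls χ) (2 * π * q / N + 2 * π) =
      deriv (fun χ => wE N m χ * TV N ls χ) (2 * π * q / N) +
      2 * Complex.I * m * N *
        (wE N m (2 * π * q / N + 2 * π) * TV N ls (2 * π * q / N + 2 * π)) := by
  have hN' : (N : ℂ) ≠ 0 := by exact_mod_cast hN.ne'
  have he : Complex.exp (2 * Complex.I * m * N * (2 * π * q / N)) = 1 := by
    rw [show (2 * Complex.I * m * N * (2 * π * q / N) : ℂ) =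
      2 * π * Complex.I * ((2 * m * q : ℤ) : ℂ) by push_cast; field_simp]
    exact exp_int _
  rw [← deriv_comp_add_const (f := fun χ => wE N m χ * TV N ls χ) (a := (2 * π : ℂ))]
  have h1 : (fun χ : ℂ => wE N m (χ + 2 * π) * TV N ls (χ + 2 * π)) =
      fun χ => wE N m χ * TV N ls χ * Complex.exp (2 * Complex.I * m * N * χ) := by
    funext χ
    exact FV_add N ls m χ
  rw [h1, FV_add, he, mul_one]
  have hd : DifferentiableAt ℂ (fun χ => wE N m χ * TV N ls χ) (2 * π * q / N) :=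
    ((wE_diff N m).mul (TV_diff N ls)) _
  have hd2 : HasDerivAt (fun χ : ℂ => Complex.exp (2 * Complex.I * m * N * χ))
      (Complex.exp (2 * Complex.I * m * N * (2 * π * q / N)) * (2 * Complex.I * m * N * 1))
      (2 * π * q / N) :=
    ((hasDerivAt_id _).const_mul _).cexp
  have h3 := (hd.hasDerivAt.mul hd2).deriv
  have h4 : ((fun χ => wE N m χ * TV N ls χ) *
      fun χ : ℂ => Complex.exp (2 * Complex.I * m * N * χ)) =
      fun χ => wE N m χ * TV N ls χ * Complex.exp (2 * Complex.I * m * N * χ) := rfl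
  rw [h4, he] at h3
  rw [h3]
  ring

/-- the errors from the blocks -/
noncomputable def rV (N : ℕ) (ls : List (Vx × Vx)) (m : ℤ) (p : ℕ) : ℂ :=
  if 2 * p < N then -(2 * Complex.I * m * N * (wE N m (2 * π * p / N) * ThV N ls p))
  else 2 * Complex.I * m * N * (wE N m (2 * π * p / N) * (TV N ls (2 * π * p / N) - ThV N ls p))

/-- the main terms -/
noncomputable def gV (N : ℕ) (ls : List (Vx × Vx)) (m : ℤ) (q : ℤ) : ℂ :=
  deriv (fun χ => wE N m χ * TV N ls χ) (2 * π * q / N)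

lemma ES_eq (N : ℕ) (hN : 0 < N) (ls : List (Vx × Vx)) (m : ℤ) :
    ES N ls m = ∑ p ∈ range N, gV N ls m (rp N p) + ∑ p ∈ range N, rV N ls m p := by
  have hN' : (N : ℂ) ≠ 0 := by exact_mod_cast hN.ne'
  unfold ES
  rw [mul_sum, ← sum_sub_distrib, ← sum_add_distrib]
  refine sum_congr rfl fun p _ => ?_
  unfold gV rV rp
  split_ifs with h
  · rw [Int.cast_natCast]
    ring
  · have h1 := FV_deriv N hN ls m ((p : ℤ) - N)
    have h2 : (2 * π * (((p : ℤ) - N : ℤ) : ℂ) / N + 2 * π : ℂ) = 2 * π * p / N := by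
      push_cast
      field_simp
      ring
    rw [h2] at h1
    rw [h1]
    ring

lemma gV_even (N : ℕ) (ls : List (Vx × Vx)) (m : ℤ) (q : ℤ) : gV N ls m (-q) = gV N ls m q := by
  unfold gV
  have h1 : (fun χ => wE N m χ * TV N ls χ) = fun χ => -(wE N m (-χ) * TV N ls (-χ)) := by
    funext χ
    have e1 : wE N m (-χ) = -wE N m χ := by
      unfold wE Ea
      rw [Complex.sin_neg, neg_sq]
      ring
    rw [e1, TV_congr N ls (Complex.cos_neg χ)]
    ring
  have h2 : ∀ w, deriv (fun χ => -(wE N m (-χ) * TV N ls (-χ))) w =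
      deriv (fun χ => wE N m χ * TV N ls χ) (-w) := by
    intro w
    have e1 : deriv (fun χ => -(wE N m (-χ) * TV N ls (-χ))) w =
        -deriv (fun χ => wE N m (-χ) * TV N ls (-χ)) w := deriv.fun_neg
    rw [e1]
    have e2 := deriv_comp_neg (f := fun χ => wE N m χ * TV N ls χ) (x := w)
    rw [e2, neg_neg]
  conv_lhs => rw [h1]
  rw [h2]
  congr 1
  push_cast
  ring

/-- the terms which are not near the origin -/
lemma restV_bd {k : ℕ} {ls : List (Vx × Vx)} (hlen : ls.length = k) (hls : ls ≠ []) (m : ℤ)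
    (hsub : SubL ls)
    (hFA : FAVc) (hTH : THVc) {V : ℝ} (hV : 157 / 100 * k + 1 / 200 ≤ V) :
    ∀ᶠ N : ℕ in atTop,
      ‖ES N ls m - ∑ q ∈ Ioo (-((N / 3 : ℕ) : ℤ)) ((N / 3 : ℕ) : ℤ), gV N ls m q‖ ≤
      Real.exp (N * (V - 1 / 800)) := by
  have hπ := Real.pi_gt_three
  have hk : 0 < (k : ℝ) := by
    have := List.length_pos_of_ne_nil hls
    rw [hlen] at this
    exact_mod_cast this
  set W : ℝ := Real.exp (1 + 2 * |(m : ℝ)|) with hW
  have hW0 : 0 < W := Real.exp_pos _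
  have hbig : ∀ᶠ N : ℕ in atTop, (2 * |(m : ℝ)| * W + 1) * N ^ 2 ≤ Real.exp (N * (1 / 800)) := by
    have hb : ∀ᶠ N : ℕ in atTop, 6 * 800 ^ 3 * (2 * |(m : ℝ)| * W + 1) ≤ (N : ℝ) :=
      tendsto_natCast_atTop_atTop.eventually_ge_atTop _
    filter_upwards [hb] with N hb
    have h2 := Real.pow_div_factorial_le_exp ((N : ℝ) * (1 / 800)) (by positivity) 3
    refine le_trans ?_ h2
    have h3 : (Nat.factorial 3 : ℝ) = 6 := by norm_num [Nat.factorial]
    rw [h3, le_div_iff₀ (by norm_num)]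
    have h4 : ((N : ℝ) * (1 / 800)) ^ 3 = N ^ 2 * (N / 800 ^ 3) := by ring
    rw [h4]
    have h5 : N ^ 2 * (6 * (2 * |(m : ℝ)| * W + 1)) ≤ (N : ℝ) ^ 2 * (N / 800 ^ 3) := by
      gcongr
      rw [le_div_iff₀ (by norm_num)]
      linarith
    linarith
  filter_upwards [hFA ls m hls hsub (1 / 400) (by norm_num), hTH ls hls hsub (1 / 400) (by norm_num), hbig,
    eventually_ge_atTop 6] with N hF hT hbig hN6
  obtain ⟨hF, -⟩ := hF
  rw [hlen] at hF hT
  have hN0 : 0 < N := by omega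
  have hN' : (0 : ℝ) < N := by exact_mod_cast hN0
  have hN1 : (1 : ℝ) ≤ N := by exact_mod_cast hN0
  set E1 : ℝ := Real.exp (N * (157 / 100 * k + 1 / 400)) with hE1
  have hE2 : Real.exp (N * (13 / 10 * k + 1 / 400)) ≤ E1 := by
    refine Real.exp_le_exp.2 (mul_le_mul_of_nonneg_left ?_ hN'.le)
    linarith
  set P : ℕ := N / 3 - 1 with hP
  have hP2 : 2 * P < N := by omega
  have hIoo : Ioo (-((N / 3 : ℕ) : ℤ)) ((N / 3 : ℕ) : ℤ) = Icc (-(P : ℤ)) P := by
    ext q
    rw [mem_Ioo, mem_Icc]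
    omega
  rw [hIoo, ES_eq N hN0, ← sum_filter_add_sum_filter_not (range N) (fun p => |rp N p| ≤ (P : ℤ)),
    sum_near N P hP2]
  have hdec : (∑ q ∈ Icc (-(P : ℤ)) P, gV N ls m q +
      ∑ p ∈ (range N).filter (fun p => ¬ |rp N p| ≤ (P : ℤ)),
      gV N ls m (rp N p) + ∑ p ∈ range N, rV N ls m p) -
        ∑ q ∈ Icc (-(P : ℤ)) P, gV N ls m q =
      ∑ p ∈ range N, rV N ls m p + ∑ p ∈ (range N).filter (fun p => ¬ |rp N p| ≤ (P : ℤ)),
      gV N ls m (rp N p) := by ring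
  rw [hdec]
  -- first error
  have hchi : ∀ p : ℕ, p < N → |(2 * π * p / N : ℂ).re| ≤ 2 * π ∧ |(2 * π * p / N : ℂ).im| ≤ 1 / N := by
    intro p hp
    have e2 : ((2 : ℂ) * π * p / N) = ((2 * π * p / N : ℝ) : ℂ) := by push_cast; rfl
    rw [e2, Complex.ofReal_re, Complex.ofReal_im, abs_zero]
    refine ⟨?_, by positivity⟩
    rw [abs_of_nonneg (by positivity), div_le_iff₀ hN']
    have : (p : ℝ) ≤ N := by exact_mod_cast hp.le
    gcongr
  have hr : ∀ p ∈ range N, ‖rV N ls m p‖ ≤ 2 * |(m : ℝ)| * W * N * E1 := by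
    intro p hp
    rw [mem_range] at hp
    have hwp := wE_bd N (by omega) m _ (hchi p hp).1 (hchi p hp).2
    have gen : ∀ t : ℂ, ‖t‖ ≤ Real.exp (N * (13 / 10 * k + 1 / 400)) →
        ‖2 * Complex.I * m * N * (wE N m (2 * π * p / N) * t)‖ ≤ 2 * |(m : ℝ)| * W * N * E1 := by
      intro t ht
      have e : ‖2 * Complex.I * m * N * (wE N m (2 * π * p / N) * t)‖ =
          2 * |(m : ℝ)| * N * (‖wE N m (2 * π * p / N)‖ * ‖t‖) := by
        rw [norm_mul, norm_mul, norm_mul, norm_mul, norm_mul, Complex.norm_I, Complex.norm_intCast]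
        simp
      rw [e]
      have : ‖wE N m (2 * π * p / N)‖ * ‖t‖ ≤ W * E1 :=
        mul_le_mul hwp (ht.trans hE2) (norm_nonneg _) hW0.le
      calc 2 * |(m : ℝ)| * N * (‖wE N m (2 * π * p / N)‖ * ‖t‖) ≤ 2 * |(m : ℝ)| * N * (W * E1) := by
            gcongr
        _ = _ := by ring
    unfold rV
    split_ifs with h
    · rw [norm_neg]
      exact gen _ ((hT p hp).1 (by omega))
    · exact gen _ ((hT p hp).2 (by omega))
  have hs1 : ‖∑ p ∈ range N, rV N ls m p‖ ≤ 2 * |(m : ℝ)| * W * N ^ 2 * E1 := by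
    refine (norm_sum_le_of_le _ hr).trans ?_
    rw [sum_const, card_range, nsmul_eq_mul]
    apply le_of_eq
    ring
  -- second error
  have hs2 : ‖∑ p ∈ (range N).filter (fun p => ¬ |rp N p| ≤ (P : ℤ)), gV N ls m (rp N p)‖ ≤
      N ^ 2 * E1 := by
    have hg : ∀ p ∈ (range N).filter (fun p => ¬ |rp N p| ≤ (P : ℤ)), ‖gV N ls m (rp N p)‖ ≤
        E1 := by
      intro p hp
      rw [mem_filter, mem_range] at hp
      obtain ⟨hp1, hp2⟩ := hp
      have hq1 : (P : ℤ) + 1 ≤ |rp N p| := by omega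
      have hq2 : 2 * |rp N p| ≤ N := by
        unfold rp
        split_ifs with h
        · rw [abs_of_nonneg (by omega)]; omega
        · rw [abs_of_neg (by omega)]; omega
      have key : ∀ q : ℕ, N / 3 ≤ q → 2 * q ≤ N → ‖gV N ls m (q : ℤ)‖ ≤ E1 := by
        intro q h1 h2
        unfold gV
        rw [Int.cast_natCast]
        exact hF q h1 h2
      obtain ⟨q, hq | hq⟩ := (rp N p).eq_nat_or_neg
      · rw [hq]
        rw [hq, Nat.abs_cast] at hq1 hq2
        exact key q (by omega) (by omega)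
      · rw [hq, gV_even]
        rw [hq, abs_neg, Nat.abs_cast] at hq1 hq2
        exact key q (by omega) (by omega)
    refine (norm_sum_le_of_le _ hg).trans ?_
    rw [sum_const, nsmul_eq_mul]
    have hcard : (((range N).filter (fun p => ¬ |rp N p| ≤ (P : ℤ))).card : ℝ) ≤ N := by
      have := card_filter_le (range N) (fun p => ¬ |rp N p| ≤ (P : ℤ))
      rw [card_range] at this
      exact_mod_cast this
    have hNN : (N : ℝ) ≤ N ^ 2 := by nlinarith
    gcongr
    exact hcard.trans hNN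
  refine (norm_add_le _ _).trans ((add_le_add hs1 hs2).trans ?_)
  have e1 : 2 * |(m : ℝ)| * W * N ^ 2 * E1 + N ^ 2 * E1 =
    ((2 * |(m : ℝ)| * W + 1) * N ^ 2) * E1 := by ring
  rw [e1]
  calc (2 * |(m : ℝ)| * W + 1) * N ^ 2 * E1 ≤ Real.exp (N * (1 / 800)) * E1 := by gcongr
    _ = Real.exp (N * (157 / 100 * k + 1 / 400 + 1 / 800)) := by
        rw [hE1, ← Real.exp_add]; congr 1; ring
    _ ≤ _ := by
        refine Real.exp_le_exp.2 (mul_le_mul_of_nonneg_left ?_ hN'.le)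
        linarith

end Pool.Agent.Y529.DR
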